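import Pool.Agent.H81SSE.Sys

/-!
# MP_993212_an: bulk families `N + c x yᵀ` with equivalent integral systems

If the systems `(N, x, y)` and `(N', x', y')` are linked by a chain of elementary equivalences
of systems over `ℤ` (signs allowed, intermediate systems arbitrary), and `x`, `y`, `x'`, `y'`
are positive, then `N + c x yᵀ` and `N' + c x' y'ᵀ` are strong shift equivalent over `ℕ` for
all large `c`.
-/

set_option autoImplicit false

namespace Pool.Agent.Results.MP_993212_an.BulkSystems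

open Matrix

/-- Elementary equivalence of square matrices over `ℕ`: `A = R S`, `B = S R` for rectangular
matrices `R`, `S` over `ℕ`. -/
def Elem (X Y : Σ n : ℕ, Matrix (Fin n) (Fin n) ℕ) : Prop :=
  ∃ (R : Matrix (Fin X.1) (Fin Y.1) ℕ) (S : Matrix (Fin Y.1) (Fin X.1) ℕ),
    X.2 = R * S ∧ Y.2 = S * R

/-- Strong shift equivalence over `ℕ` (a finite chain of elementary equivalences). -/
def SSE {n m : ℕ} (A : Matrix (Fin n) (Fin n) ℕ) (B : Matrix (Fin m) (Fin m) ℕ) : Prop :=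
  Relation.TransGen Elem ⟨n, A⟩ ⟨m, B⟩

/-- An integral system: a square integer matrix `N`, a column `x` and a row `y`. -/
structure Sys where
  n : ℕ
  N : Matrix (Fin n) (Fin n) ℤ
  x : Fin n → ℤ
  y : Fin n → ℤ

/-- Elementary equivalence of integral systems over `ℤ`: `N = R S`, `N' = S R`, `x = R x'`,
`y' = y R` with integer matrices `R`, `S`. -/
def Step (σ τ : Sys) : Prop :=
  ∃ (R : Matrix (Fin σ.n) (Fin τ.n) ℤ) (S : Matrix (Fin τ.n) (Fin σ.n) ℤ),
    σ.N = R * S ∧ τ.N = S * R ∧ σ.x = R *ᵥ τ.x ∧ τ.y = σ.y ᵥ* R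

/-- Equivalence of integral systems over `ℤ`: the equivalence relation generated by `Step`. -/
def Equiv (σ τ : Sys) : Prop := Relation.EqvGen Step σ τ

/-- The system has size at least one, and its column and row have positive entries. -/
def Positive (σ : Sys) : Prop := 0 < σ.n ∧ (∀ i, 0 < σ.x i) ∧ ∀ i, 0 < σ.y i

/-- The matrix `N + c x yᵀ` over `ℕ` (used only where its entries are nonnegative). -/
def fam (σ : Sys) (c : ℕ) : Matrix (Fin σ.n) (Fin σ.n) ℕ :=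
  Matrix.of fun i j => (σ.N i j + c * (σ.x i * σ.y j)).toNat

/-- The system with row and column matrices. -/
def toG (σ : Sys) : Pool.Agent.H81SSE.GSys :=
  ⟨Fin σ.n, inferInstance, inferInstance, σ.N, Matrix.of fun i _ => σ.x i,
    Matrix.of fun _ j => σ.y j⟩

lemma toG_step {σ τ : Sys} (h : Step σ τ) : Pool.Agent.H81SSE.GStep (toG σ) (toG τ) := by
  obtain ⟨R, S, h1, h2, h3, h4⟩ := h
  refine ⟨R, S, h1, h2, ?_, ?_⟩
  · ext i j
    exact congrFun h3 i
  · ext i j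
    exact congrFun h4 j

lemma toG_equiv {σ τ : Sys} (h : Equiv σ τ) :
    Relation.EqvGen Pool.Agent.H81SSE.GStep (toG σ) (toG τ) := by
  induction h with
  | rel _ _ h => exact Relation.EqvGen.rel _ _ (toG_step h)
  | refl _ => exact Relation.EqvGen.refl _
  | symm _ _ _ ih => exact Relation.EqvGen.symm _ _ ih
  | trans _ _ _ _ _ ih1 ih2 => exact Relation.EqvGen.trans _ _ _ ih1 ih2

lemma fam_nonneg (σ : Sys) (hσ : Positive σ) (c : ℕ)
    (hc : ∑ i, ∑ j, |σ.N i j| ≤ (c : ℤ)) (i j : Fin σ.n) :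
    0 ≤ σ.N i j + c * (σ.x i * σ.y j) := by
  have h1 : |σ.N i j| ≤ ∑ i, ∑ j, |σ.N i j| :=
    (Finset.single_le_sum (f := fun j => |σ.N i j|) (fun j _ => abs_nonneg _)
      (Finset.mem_univ j)).trans
    (Finset.single_le_sum (f := fun i => ∑ j, |σ.N i j|)
      (fun i _ => Finset.sum_nonneg fun j _ => abs_nonneg _) (Finset.mem_univ i))
  have h2 := neg_abs_le (σ.N i j)
  have h3 : 1 ≤ σ.x i * σ.y j := mul_pos (hσ.2.1 i) (hσ.2.2 j)
  have h4 : (0 : ℤ) ≤ c := Int.natCast_nonneg c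
  nlinarith

lemma fam_cast (σ : Sys) (c : ℕ) (h : ∀ i j, 0 ≤ σ.N i j + c * (σ.x i * σ.y j)) :
    (fam σ c).map (Nat.cast : ℕ → ℤ) = (toG σ).N + (c : ℤ) • ((toG σ).x * (toG σ).y) := by
  ext i j
  have h1 : ((Matrix.of fun (i : Fin σ.n) (_ : Unit) => σ.x i) *
      (Matrix.of fun (_ : Unit) (j : Fin σ.n) => σ.y j)) i j = σ.x i * σ.y j := by
    rw [Matrix.mul_apply]
    simp
  exact (Int.toNat_of_nonneg (h i j)).trans
    (congrArg (fun t => σ.N i j + (c : ℤ) * t) h1.symm)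

theorem result (σ τ : Sys) (hσ : Positive σ) (hτ : Positive τ) (h : Equiv σ τ) :
    ∃ c₀ : ℕ, ∀ c : ℕ, c₀ ≤ c →
      -- the entries are nonnegative
      (∀ i j, ((fam σ c i j : ℕ) : ℤ) = σ.N i j + c * (σ.x i * σ.y j)) ∧
      (∀ i j, ((fam τ c i j : ℕ) : ℤ) = τ.N i j + c * (τ.x i * τ.y j)) ∧
      SSE (fam σ c) (fam τ c) := by
  have : Nonempty (toG σ).ι := ⟨⟨0, hσ.1⟩⟩
  have : Nonempty (toG τ).ι := ⟨⟨0, hτ.1⟩⟩
  obtain ⟨c₁, hc₁⟩ := Pool.Agent.H81SSE.bulk (toG_equiv h) (fun i _ => hσ.2.1 i)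
    (fun _ j => hσ.2.2 j) (fun i _ => hτ.2.1 i) (fun _ j => hτ.2.2 j)
  refine ⟨(max c₁ (max (∑ i, ∑ j, |σ.N i j|) (∑ i, ∑ j, |τ.N i j|))).toNat, fun c hc => ?_⟩
  have hc2 := Int.toNat_le.1 hc
  simp only [max_le_iff] at hc2
  have p1 := fam_nonneg σ hσ c hc2.2.1
  have p2 := fam_nonneg τ hτ c hc2.2.2
  refine ⟨fun i j => Int.toNat_of_nonneg (p1 i j), fun i j => Int.toNat_of_nonneg (p2 i j), ?_⟩
  have h1 := hc₁ c hc2.1
  have h2 := fam_cast σ c p1
  have h3 := fam_cast τ c p2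
  rw [← h2, ← h3] at h1
  exact Pool.Agent.H81SSE.transGen_of_QQ h1

end Pool.Agent.Results.MP_993212_an.BulkSystems
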