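import Pool.Agent.H81SSE.Reach
import Pool.Agent.H81SSE.Trans

/-!
# MP_993212_an: Williams' problem for matrices with nearly parallel columns

For all `ν`, `β` there is `K` such that for square matrices of size at most `ν` over `ℕ` of the form
`x bᵀ + N`, where `x` is a positive integer vector with entries at most `β`, the entries of `N` are
at most `β` in absolute value, `x, N x, N² x, …, N^(n-1) x` is a basis of `ℤⁿ`, and all entries of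
`b` are at least `K`, strong shift equivalence over `ℕ`, shift equivalence over `ℕ`, shift
equivalence over `ℤ` and equality of the zeta functions (equality of the characteristic polynomials
up to powers of the variable) coincide.
-/

set_option autoImplicit false

namespace Pool.Agent.Results.MP_993212_an.ParallelColumns

open Matrix Polynomial

/-- Elementary equivalence of square matrices over `ℕ`: `A = R S`, `B = S R` for rectangular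
matrices `R`, `S` over `ℕ`. -/
def Elem (X Y : Σ n : ℕ, Matrix (Fin n) (Fin n) ℕ) : Prop :=
  ∃ (R : Matrix (Fin X.1) (Fin Y.1) ℕ) (S : Matrix (Fin Y.1) (Fin X.1) ℕ),
    X.2 = R * S ∧ Y.2 = S * R

/-- Strong shift equivalence over `ℕ` (a finite chain of elementary equivalences). -/
def SSE {n m : ℕ} (A : Matrix (Fin n) (Fin n) ℕ) (B : Matrix (Fin m) (Fin m) ℕ) : Prop :=
  Relation.TransGen Elem ⟨n, A⟩ ⟨m, B⟩

/-- Shift equivalence of square matrices over a semiring `k` (used for `k = ℕ` and `k = ℤ`). -/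
def SE (k : Type) [Semiring k] {n m : ℕ} (A : Matrix (Fin n) (Fin n) k)
    (B : Matrix (Fin m) (Fin m) k) : Prop :=
  ∃ l, 1 ≤ l ∧ ∃ (R : Matrix (Fin n) (Fin m) k) (S : Matrix (Fin m) (Fin n) k),
    A ^ l = R * S ∧ B ^ l = S * R ∧ A * R = R * B ∧ S * A = B * S

/-- The matrix `A` viewed over `ℤ`. -/
def toZ {n : ℕ} (A : Matrix (Fin n) (Fin n) ℕ) : Matrix (Fin n) (Fin n) ℤ :=
  A.map (Nat.cast : ℕ → ℤ)

/-- The columns of `A` are nearly parallel to the bounded positive vector `x`: `A = x bᵀ + N` with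
`1 ≤ x i ≤ β`, `|N i j| ≤ β` and `K ≤ b j`; and `x, N x, …, N ^ (n - 1) x` is a basis of `ℤ ^ n`. -/
def Parallel (β K : ℕ) {n : ℕ} (A : Matrix (Fin n) (Fin n) ℕ) : Prop :=
  ∃ (N : Matrix (Fin n) (Fin n) ℤ) (x b : Fin n → ℤ),
    (∀ i, 1 ≤ x i ∧ x i ≤ β) ∧ (∀ i j, |N i j| ≤ β) ∧ (∀ j, (K : ℤ) ≤ b j) ∧
    IsUnit (Matrix.of fun i (j : Fin n) => ((N ^ (j : ℕ)) *ᵥ x) i).det ∧
    ∀ i j, (A i j : ℤ) = x i * b j + N i j

/-- The data of fixed size. -/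
def Par {n : ℕ} (N : Matrix (Fin n) (Fin n) ℤ) (x : Fin n → ℤ) (K : ℕ)
    (A : Matrix (Fin n) (Fin n) ℕ) : Prop :=
  ∃ b : Fin n → ℤ, (∀ j, (K : ℤ) ≤ b j) ∧ ∀ i j, (A i j : ℤ) = x i * b j + N i j

lemma toZ_eq {n : ℕ} {A : Matrix (Fin n) (Fin n) ℕ} {N : Matrix (Fin n) (Fin n) ℤ}
    {x b : Fin n → ℤ} (h : ∀ i j, (A i j : ℤ) = x i * b j + N i j) :
    toZ A = Pool.Agent.H81SSE.colM x * (Matrix.of fun _ j => b j : Matrix Unit (Fin n) ℤ) + N := by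
  ext i j
  rw [Matrix.add_apply, Matrix.mul_apply]
  simp only [Pool.Agent.H81SSE.colM, Matrix.of_apply, Finset.univ_unique, Finset.sum_singleton]
  exact h i j

/-- The case of fixed data. -/
lemma fixed {n m : ℕ} (hm : 0 < m) (hmn : m ≤ n) (N : Matrix (Fin n) (Fin n) ℤ)
    (x : Fin n → ℤ) (N' : Matrix (Fin m) (Fin m) ℤ) (x' : Fin m → ℤ)
    (hx : ∀ i, 0 < x i) (hx' : ∀ i, 0 < x' i)
    (hK : IsUnit (Pool.Agent.H81SSE.krylov N x).det)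
    (hK' : IsUnit (Pool.Agent.H81SSE.krylov N' x').det) :
    ∃ K : ℕ, ∀ (A : Matrix (Fin n) (Fin n) ℕ) (B : Matrix (Fin m) (Fin m) ℕ),
      Par N x K A → Par N' x' K B →
      (X : ℤ[X]) ^ m * (toZ A).charpoly = X ^ n * (toZ B).charpoly → SSE A B := by
  obtain ⟨K, hK⟩ := Pool.Agent.H81SSE.reach_pair hm hmn N x N' x' hx hx' hK hK'
  refine ⟨K.toNat, fun A B hA hB h => ?_⟩
  obtain ⟨b, hb, hA⟩ := hA
  obtain ⟨b', hb', hB⟩ := hB
  have h1 := hK (Matrix.of fun _ j => b j) (Matrix.of fun _ j => b' j)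
    (fun _ j => (Int.self_le_toNat K).trans (hb j))
    (fun _ j => (Int.self_le_toNat K).trans (hb' j)) (by rw [← toZ_eq hA, ← toZ_eq hB]; exact h)
  rw [← toZ_eq hA, ← toZ_eq hB] at h1
  exact Pool.Agent.H81SSE.transGen_of_QQ h1

lemma Par.mono {n : ℕ} {N : Matrix (Fin n) (Fin n) ℤ} {x : Fin n → ℤ} {K K' : ℕ}
    (hK : K' ≤ K) {A : Matrix (Fin n) (Fin n) ℕ} (h : Par N x K A) : Par N x K' A := by
  obtain ⟨b, h1, h2⟩ := h
  exact ⟨b, fun j => le_trans (by exact_mod_cast hK) (h1 j), h2⟩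

lemma charpoly_of_SSE {n m : ℕ} {A : Matrix (Fin n) (Fin n) ℕ} {B : Matrix (Fin m) (Fin m) ℕ}
    (h : SE ℤ (toZ A) (toZ B)) :
    (X : ℤ[X]) ^ m * (toZ A).charpoly = X ^ n * (toZ B).charpoly := by
  obtain ⟨l, _, R, S, e1, e2, e3, e4⟩ := h
  exact Pool.Agent.H81SSE.charpoly_of_se _ _ l R S e1 e2 e3 e4

lemma forward (ν β : ℕ) : ∃ K : ℕ, ∀ (n m : ℕ) (A : Matrix (Fin n) (Fin n) ℕ)
    (B : Matrix (Fin m) (Fin m) ℕ), 0 < m → m ≤ n → n ≤ ν → Parallel β K A → Parallel β K B →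
    (X : ℤ[X]) ^ m * (toZ A).charpoly = X ^ n * (toZ B).charpoly → SSE A B := by
  classical
  let I : Type := Σ n : Fin (ν + 1), (Fin n → Fin n → Set.Icc (-(β : ℤ)) β) ×
    (Fin n → Set.Icc (-(β : ℤ)) β)
  have hfix : ∀ p : I × I, ∃ K : ℕ, 0 < (p.2.1 : ℕ) → (p.2.1 : ℕ) ≤ (p.1.1 : ℕ) →
      (∀ i, 0 < ((p.1.2.2 i : ℤ))) → (∀ i, 0 < ((p.2.2.2 i : ℤ))) →
      IsUnit (Pool.Agent.H81SSE.krylov (Matrix.of fun i j => (p.1.2.1 i j : ℤ))
        (fun i => (p.1.2.2 i : ℤ))).det →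
      IsUnit (Pool.Agent.H81SSE.krylov (Matrix.of fun i j => (p.2.2.1 i j : ℤ))
        (fun i => (p.2.2.2 i : ℤ))).det →
      ∀ (A : Matrix (Fin p.1.1) (Fin p.1.1) ℕ) (B : Matrix (Fin p.2.1) (Fin p.2.1) ℕ),
      Par (Matrix.of fun i j => (p.1.2.1 i j : ℤ)) (fun i => (p.1.2.2 i : ℤ)) K A →
      Par (Matrix.of fun i j => (p.2.2.1 i j : ℤ)) (fun i => (p.2.2.2 i : ℤ)) K B →
      (X : ℤ[X]) ^ (p.2.1 : ℕ) * (toZ A).charpoly = X ^ (p.1.1 : ℕ) * (toZ B).charpoly →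
      SSE A B := by
    intro p
    by_cases h : 0 < (p.2.1 : ℕ) ∧ (p.2.1 : ℕ) ≤ (p.1.1 : ℕ) ∧
      (∀ i, 0 < ((p.1.2.2 i : ℤ))) ∧ (∀ i, 0 < ((p.2.2.2 i : ℤ))) ∧
      IsUnit (Pool.Agent.H81SSE.krylov (Matrix.of fun i j => (p.1.2.1 i j : ℤ))
        (fun i => (p.1.2.2 i : ℤ))).det ∧
      IsUnit (Pool.Agent.H81SSE.krylov (Matrix.of fun i j => (p.2.2.1 i j : ℤ))
        (fun i => (p.2.2.2 i : ℤ))).det
    · obtain ⟨h1, h2, h3, h4, h5, h6⟩ := h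
      obtain ⟨K, hK⟩ := fixed h1 h2 _ _ _ _ h3 h4 h5 h6
      exact ⟨K, fun _ _ _ _ _ _ => hK⟩
    · exact ⟨0, fun h1 h2 h3 h4 h5 h6 => absurd ⟨h1, h2, h3, h4, h5, h6⟩ h⟩
  choose c hc using hfix
  obtain ⟨M, hM⟩ := (Set.finite_range c).bddAbove
  refine ⟨M, fun n m A B hm hmn hn hA hB hch => ?_⟩
  obtain ⟨N, x, b, hx, hN, hb, hu, hAe⟩ := hA
  obtain ⟨N', x', b', hx', hN', hb', hu', hBe⟩ := hB
  let p : I × I := (⟨⟨n, by omega⟩, fun i j => ⟨N i j, abs_le.1 (hN i j)⟩,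
      fun i => ⟨x i, by linarith [(hx i).1, (Nat.cast_nonneg β : (0 : ℤ) ≤ β)], (hx i).2⟩⟩,
    ⟨⟨m, by omega⟩, fun i j => ⟨N' i j, abs_le.1 (hN' i j)⟩,
      fun i => ⟨x' i, by linarith [(hx' i).1, (Nat.cast_nonneg β : (0 : ℤ) ≤ β)], (hx' i).2⟩⟩)
  have hcp : c p ≤ M := hM ⟨p, rfl⟩
  exact hc p hm hmn (fun i => (hx i).1) (fun i => (hx' i).1) hu hu' A B
    (Par.mono hcp ⟨b, hb, hAe⟩) (Par.mono hcp ⟨b', hb', hBe⟩) hch

lemma Parallel.mono {β K K' : ℕ} (hK : K' ≤ K) {n : ℕ} {A : Matrix (Fin n) (Fin n) ℕ}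
    (h : Parallel β K A) : Parallel β K' A := by
  obtain ⟨N, x, b, h1, h2, h3, h4⟩ := h
  exact ⟨N, x, b, h1, h2, fun j => le_trans (by exact_mod_cast hK) (h3 j), h4⟩

theorem result (ν β : ℕ) : ∃ K : ℕ, ∀ (n m : ℕ) (A : Matrix (Fin n) (Fin n) ℕ)
    (B : Matrix (Fin m) (Fin m) ℕ), 0 < n → n ≤ ν → 0 < m → m ≤ ν →
    Parallel β K A → Parallel β K B →
    (SSE A B ↔ SE ℕ A B) ∧ (SE ℕ A B ↔ SE ℤ (toZ A) (toZ B)) ∧
      (SSE A B ↔ (X : ℤ[X]) ^ m * (toZ A).charpoly = X ^ n * (toZ B).charpoly) := by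
  obtain ⟨K, hK⟩ := forward ν β
  refine ⟨K, fun n m A B hn hnν hm hmν hA hB => ?_⟩
  have i1 : (X : ℤ[X]) ^ m * (toZ A).charpoly = X ^ n * (toZ B).charpoly → SSE A B := by
    intro h
    rcases le_total m n with h1 | h1
    · exact hK n m A B hm h1 hnν hA hB h
    · exact Pool.Agent.H81SSE.transGen_symm (hK m n B A hn h1 hmν hB hA h.symm)
  have i2 : SSE A B → SE ℕ A B :=
    fun h => Pool.Agent.H81SSE.se_of_transGen (fun _ _ hXY => hXY) h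
  have i3 : SE ℕ A B → SE ℤ (toZ A) (toZ B) := fun h => Pool.Agent.H81SSE.seZ_of_seN h
  have i4 : SE ℤ (toZ A) (toZ B) →
      (X : ℤ[X]) ^ m * (toZ A).charpoly = X ^ n * (toZ B).charpoly := charpoly_of_SSE
  exact ⟨⟨i2, fun h => i1 (i4 (i3 h))⟩, ⟨i3, fun h => i2 (i1 (i4 h))⟩, ⟨fun h => i4 (i3 (i2 h)), i1⟩⟩

end Pool.Agent.Results.MP_993212_an.ParallelColumns
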