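import Pool.Agent.H81SSE.Converse

/-!
# MP_993212_an: Williams' problem for bulk families `N + c x yᵀ` with `N x = 0` and `y N = 0`

For all large `c` strong shift equivalence over `ℕ`, shift equivalence over `ℕ` and shift
equivalence over `ℤ` of `N + c x yᵀ` and `N' + c x' y'ᵀ` coincide, and they hold exactly if
`y · x = y' · x'` and the integer matrices `N`, `N'` are shift equivalent over `ℤ`.
-/

set_option autoImplicit false

namespace Pool.Agent.H81SSE.Old.StableWilliams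

open Matrix

/-- Elementary equivalence of square matrices over `ℕ`: `A = R S`, `B = S R` for rectangular
matrices `R`, `S` over `ℕ`. -/
def Elem (X Y : Σ n : ℕ, Matrix (Fin n) (Fin n) ℕ) : Prop :=
  ∃ (R : Matrix (Fin X.1) (Fin Y.1) ℕ) (S : Matrix (Fin Y.1) (Fin X.1) ℕ),
    X.2 = R * S ∧ Y.2 = S * R

/-- Strong shift equivalence over `ℕ` (a finite chain of elementary equivalences). -/
def SSE {n m : ℕ} (A : Matrix (Fin n) (Fin n) ℕ) (B : Matrix (Fin m) (Fin m) ℕ) : Prop :=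
  Relation.TransGen Elem ⟨n, A⟩ ⟨m, B⟩

/-- Shift equivalence of square matrices over a semiring `k` (used for `k = ℕ` and `k = ℤ`). -/
def SE (k : Type) [Semiring k] {n m : ℕ} (A : Matrix (Fin n) (Fin n) k)
    (B : Matrix (Fin m) (Fin m) k) : Prop :=
  ∃ l, 1 ≤ l ∧ ∃ (R : Matrix (Fin n) (Fin m) k) (S : Matrix (Fin m) (Fin n) k),
    A ^ l = R * S ∧ B ^ l = S * R ∧ A * R = R * B ∧ S * A = B * S

/-- The integer matrix `N + c x yᵀ`. -/
def fam {n : ℕ} (N : Matrix (Fin n) (Fin n) ℤ) (x y : Fin n → ℤ) (c : ℕ) :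
    Matrix (Fin n) (Fin n) ℤ :=
  Matrix.of fun i j => N i j + c * (x i * y j)

/-- The matrix `N + c x yᵀ` over `ℕ` (it is used only where its entries are nonnegative). -/
def famN {n : ℕ} (N : Matrix (Fin n) (Fin n) ℤ) (x y : Fin n → ℤ) (c : ℕ) :
    Matrix (Fin n) (Fin n) ℕ :=
  Matrix.of fun i j => (fam N x y c i j).toNat

/-- The column with entries `x i`. -/
def col {n : ℕ} (x : Fin n → ℤ) : Matrix (Fin n) Unit ℤ := Matrix.of fun i _ => x i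

/-- The row with entries `y j`. -/
def row {n : ℕ} (y : Fin n → ℤ) : Matrix Unit (Fin n) ℤ := Matrix.of fun _ j => y j

lemma mul_col {n : ℕ} {N : Matrix (Fin n) (Fin n) ℤ} {x : Fin n → ℤ} (h : N *ᵥ x = 0) :
    N * col x = 0 := by
  ext i j
  exact congrFun h i

lemma row_mul {n : ℕ} {N : Matrix (Fin n) (Fin n) ℤ} {y : Fin n → ℤ} (h : y ᵥ* N = 0) :
    row y * N = 0 := by
  ext i j
  exact congrFun h j

lemma row_mul_col {n : ℕ} (x y : Fin n → ℤ) :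
    row y * col x = Matrix.of fun _ _ => y ⬝ᵥ x := by
  ext i j
  rfl

lemma fam_eq {n : ℕ} (N : Matrix (Fin n) (Fin n) ℤ) (x y : Fin n → ℤ) (c : ℕ) :
    fam N x y c = N + (c : ℤ) • (col x * row y) := by
  ext i j
  have h : (col x * row y) i j = x i * y j := by
    rw [Matrix.mul_apply]
    simp [col, row]
  rw [Matrix.add_apply, Matrix.smul_apply, h]
  rfl

lemma fam_nonneg {n : ℕ} (N : Matrix (Fin n) (Fin n) ℤ) (x y : Fin n → ℤ)
    (hx : ∀ i, 0 < x i) (hy : ∀ i, 0 < y i) (c : ℕ)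
    (hc : ∑ i, ∑ j, |N i j| < (c : ℤ)) (i j : Fin n) : 0 ≤ fam N x y c i j := by
  have h1 : |N i j| ≤ ∑ i, ∑ j, |N i j| :=
    (Finset.single_le_sum (f := fun j => |N i j|) (fun j _ => abs_nonneg _)
      (Finset.mem_univ j)).trans
    (Finset.single_le_sum (f := fun i => ∑ j, |N i j|)
      (fun i _ => Finset.sum_nonneg fun j _ => abs_nonneg _) (Finset.mem_univ i))
  have h2 := neg_abs_le (N i j)
  have h3 : 1 ≤ x i * y j := mul_pos (hx i) (hy j)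
  have h4 : (0 : ℤ) ≤ c := Int.natCast_nonneg c
  simp only [fam, Matrix.of_apply]
  nlinarith

lemma famN_cast {n : ℕ} (N : Matrix (Fin n) (Fin n) ℤ) (x y : Fin n → ℤ) (c : ℕ)
    (h : ∀ i j, 0 ≤ fam N x y c i j) :
    (famN N x y c).map (Nat.cast : ℕ → ℤ) = fam N x y c := by
  ext i j
  simp only [famN, Matrix.map_apply, Matrix.of_apply]
  exact Int.toNat_of_nonneg (h i j)

theorem result (n m : ℕ) (hn : 0 < n) (hm : 0 < m)
    (N : Matrix (Fin n) (Fin n) ℤ) (x y : Fin n → ℤ)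
    (N' : Matrix (Fin m) (Fin m) ℤ) (x' y' : Fin m → ℤ)
    (hx : ∀ i, 0 < x i) (hy : ∀ i, 0 < y i) (hx' : ∀ i, 0 < x' i) (hy' : ∀ i, 0 < y' i)
    (hNx : N *ᵥ x = 0) (hyN : y ᵥ* N = 0) (hNx' : N' *ᵥ x' = 0) (hyN' : y' ᵥ* N' = 0) :
    ∃ c₀ : ℕ, ∀ c c' : ℕ, c₀ ≤ c → c₀ ≤ c' →
      -- the entries are nonnegative
      (∀ i j, ((famN N x y c i j : ℕ) : ℤ) = N i j + c * (x i * y j)) ∧
      (∀ i j, ((famN N' x' y' c' i j : ℕ) : ℤ) = N' i j + c' * (x' i * y' j)) ∧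
      -- the three relations agree, and are decided by the bulk numbers and the small parts
      (SSE (famN N x y c) (famN N' x' y' c') ↔
        ((c : ℤ) * (y ⬝ᵥ x) = c' * (y' ⬝ᵥ x') ∧ SE ℤ N N')) ∧
      (SE ℕ (famN N x y c) (famN N' x' y' c') ↔
        ((c : ℤ) * (y ⬝ᵥ x) = c' * (y' ⬝ᵥ x') ∧ SE ℤ N N')) ∧
      (SE ℤ (fam N x y c) (fam N' x' y' c') ↔
        ((c : ℤ) * (y ⬝ᵥ x) = c' * (y' ⬝ᵥ x') ∧ SE ℤ N N')) := by
  have : Nonempty (Fin n) := ⟨⟨0, hn⟩⟩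
  have : Nonempty (Fin m) := ⟨⟨0, hm⟩⟩
  have d1 : (row y * col x) () () = y ⬝ᵥ x := rfl
  have d2 : (row y' * col x') () () = y' ⬝ᵥ x' := rfl
  have hfw : ∃ c₃ : ℤ, ∀ c c' : ℤ, c₃ ≤ c → c₃ ≤ c' →
      (c * (y ⬝ᵥ x) = c' * (y' ⬝ᵥ x') ∧ SE ℤ N N') →
      Pool.Agent.H81SSE.QQ (N + c • (col x * row y)) (N' + c' • (col x' * row y')) := by
    by_cases h : SE ℤ N N'
    · obtain ⟨l, _, R, S, e1, e2, e3, e4⟩ := h
      obtain ⟨c₃, hc₃⟩ := Pool.Agent.H81SSE.stable_forward N (col x) (row y) N' (col x') (row y')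
        (mul_col hNx) (row_mul hyN) (mul_col hNx') (row_mul hyN')
        (fun i _ => hx i) (fun _ j => hy j) (fun i _ => hx' i) (fun _ j => hy' j)
        l R S e1 e2 e3 e4
      exact ⟨c₃, fun c c' hc hc' h => hc₃ c c' hc hc' h.1⟩
    · exact ⟨0, fun c c' _ _ h' => absurd h'.2 h⟩
  obtain ⟨c₃, hc₃⟩ := hfw
  have hs1 : 0 < y ⬝ᵥ x := Finset.sum_pos (fun i _ => mul_pos (hy i) (hx i)) Finset.univ_nonempty
  have hs2 : 0 < y' ⬝ᵥ x' :=
    Finset.sum_pos (fun i _ => mul_pos (hy' i) (hx' i)) Finset.univ_nonempty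
  have hN0 : 0 ≤ ∑ i, ∑ j, |N i j| :=
    Finset.sum_nonneg fun i _ => Finset.sum_nonneg fun j _ => abs_nonneg _
  have hN0' : 0 ≤ ∑ i, ∑ j, |N' i j| :=
    Finset.sum_nonneg fun i _ => Finset.sum_nonneg fun j _ => abs_nonneg _
  refine ⟨(max c₃ ((∑ i, ∑ j, |N i j|) + (∑ i, ∑ j, |N' i j|) + 1)).toNat,
    fun c c' hc hc' => ?_⟩
  have hc2 : max c₃ ((∑ i, ∑ j, |N i j|) + (∑ i, ∑ j, |N' i j|) + 1) ≤ (c : ℤ) :=
    Int.toNat_le.1 hc
  have hc2' : max c₃ ((∑ i, ∑ j, |N i j|) + (∑ i, ∑ j, |N' i j|) + 1) ≤ (c' : ℤ) :=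
    Int.toNat_le.1 hc'
  have k1 : c₃ ≤ (c : ℤ) := le_trans (le_max_left _ _) hc2
  have k1' : c₃ ≤ (c' : ℤ) := le_trans (le_max_left _ _) hc2'
  have k2 : (∑ i, ∑ j, |N i j|) + (∑ i, ∑ j, |N' i j|) + 1 ≤ (c : ℤ) :=
    le_trans (le_max_right _ _) hc2
  have k2' : (∑ i, ∑ j, |N i j|) + (∑ i, ∑ j, |N' i j|) + 1 ≤ (c' : ℤ) :=
    le_trans (le_max_right _ _) hc2'
  have p1 := fam_nonneg N x y hx hy c (by linarith)
  have p2 := fam_nonneg N' x' y' hx' hy' c' (by linarith)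
  have q1 := famN_cast N x y c p1
  have q2 := famN_cast N' x' y' c' p2
  -- the implications
  have i1 : ((c : ℤ) * (y ⬝ᵥ x) = c' * (y' ⬝ᵥ x') ∧ SE ℤ N N') →
      SSE (famN N x y c) (famN N' x' y' c') := by
    intro h
    have h1 := hc₃ c c' k1 k1' h
    rw [← fam_eq, ← fam_eq, ← q1, ← q2] at h1
    exact Pool.Agent.H81SSE.transGen_of_QQ h1
  have i2 : SSE (famN N x y c) (famN N' x' y' c') → SE ℕ (famN N x y c) (famN N' x' y' c') :=
    fun h => Pool.Agent.H81SSE.se_of_transGen (fun _ _ hXY => hXY) h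
  have i3 : SE ℕ (famN N x y c) (famN N' x' y' c') → SE ℤ (fam N x y c) (fam N' x' y' c') := by
    intro h
    have h1 := Pool.Agent.H81SSE.seZ_of_seN h
    rw [q1, q2] at h1
    exact h1
  have i4 : SE ℤ (fam N x y c) (fam N' x' y' c') →
      ((c : ℤ) * (y ⬝ᵥ x) = c' * (y' ⬝ᵥ x') ∧ SE ℤ N N') := by
    rintro ⟨l, hl, R, S, e1, e2, e3, e4⟩
    rw [fam_eq, fam_eq] at e3 e4
    rw [fam_eq] at e1 e2
    have hcpos : (0 : ℤ) < c := by linarith
    have n1 : Pool.Agent.H81SSE.NoEig N (c' * (y' ⬝ᵥ x')) :=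
      Pool.Agent.H81SSE.noEig_large N _ (by nlinarith)
    have n2 : Pool.Agent.H81SSE.NoEig N' (c * (y ⬝ᵥ x)) :=
      Pool.Agent.H81SSE.noEig_large N' _ (by nlinarith)
    refine ⟨Pool.Agent.H81SSE.same_trace N (col x) (row y) N' (col x') (row y') c c' _ _ hcpos hs1
      (row_mul hyN) (row_mul hyN') (fun _ j => hy j) (row_mul_col x y) (row_mul_col x' y') n2
      l R S e1 e3, ?_⟩
    obtain ⟨R', S', f1, f2, f3, f4⟩ := Pool.Agent.H81SSE.descend N (col x) (row y) N' (col x')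
      (row y') c c' _ _ (row_mul hyN) (row_mul hyN') (row_mul_col x y) (row_mul_col x' y') n1 n2
      l R S e1 e2 e3 e4
    exact ⟨l + 2, by omega, R', S', f1, f2, f3, f4⟩
  refine ⟨fun i j => ?_, fun i j => ?_, ⟨fun h => i4 (i3 (i2 h)), i1⟩,
    ⟨fun h => i4 (i3 h), fun h => i2 (i1 h)⟩, ⟨i4, fun h => i3 (i2 (i1 h))⟩⟩
  · exact Int.toNat_of_nonneg (p1 i j)
  · exact Int.toNat_of_nonneg (p2 i j)

end Pool.Agent.H81SSE.Old.StableWilliams
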